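import Pool.Agent.H18.DTO.Orb

/-!
The fourth moment inequality along the orbits of a linear code: a Fourier sum supported on vectors
whose supports have rank at most `j` in the code has orbitwise fourth moment norm at most `K ^ j`
times its second moment.
-/

namespace Pool.Agent.H18.DTO

open Finset Module Pool.Agent.H76.DTO Pool.Agent.H25.DTO
open scoped Classical

noncomputable section

set_option linter.unusedSectionVars false

variable {F : Type} [Field F] [Fintype F]

/-- Parseval on the field -/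
lemma parseval_one (ψ : AddChar F ℂ) (hψ : ψ.IsPrimitive) (z : F → ℂ) :
    ∑ t, ‖∑ j, ψ (j * t) * z j‖ ^ 2 = (Fintype.card F : ℝ) * ∑ j, ‖z j‖ ^ 2 := by
  have h := fsum_sq (n := 1) ψ hψ (fun b => z (b 0))
  rw [pow_one] at h
  have e1 : ∑ y : Fin 1 → F, ‖fsum ψ (fun b => z (b 0)) y‖ ^ 2 =
      ∑ t, ‖∑ j, ψ (j * t) * z j‖ ^ 2 := by
    refine Fintype.sum_equiv (Equiv.funUnique (Fin 1) F) _ _ fun y => ?_
    congr 2
    rw [fsum]
    refine Fintype.sum_equiv (Equiv.funUnique (Fin 1) F) _ _ fun b => ?_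
    simp only [Equiv.funUnique_apply, Fin.default_eq_zero, Finset.univ_unique,
      Finset.sum_singleton]
    ring
  have e2 : ∑ b : Fin 1 → F, ‖z (b 0)‖ ^ 2 = ∑ j, ‖z j‖ ^ 2 := by
    refine Fintype.sum_equiv (Equiv.funUnique (Fin 1) F) _ _ fun y => ?_
    simp
  rw [e1, e2] at h
  exact h

/-- Fourth moments of centred perturbations of a constant on the field. -/
lemma fourth_field (a : ℂ) (β : F → ℂ) (b : ℝ) (hb : 0 ≤ b) (h0 : ∑ t, β t = 0)
    (h2 : ∑ t, ‖β t‖ ^ 2 = (Fintype.card F : ℝ) * b)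
    (hs : ∀ t, ‖β t‖ ^ 2 ≤ (Fintype.card F : ℝ) * b) :
    ∑ t, ‖a + β t‖ ^ 4 ≤ (Fintype.card F : ℝ) *
      (‖a‖ ^ 2 + 5 / 2 * √(Fintype.card F : ℝ) * b) ^ 2 := by
  set q : ℝ := (Fintype.card F : ℝ) with hq
  have hq0 : 0 < q := qpos
  have hq2 : 2 ≤ q := by
    have : 1 < Fintype.card F := Fintype.one_lt_card
    rw [hq]
    exact_mod_cast this
  have hsq : √q * √q = q := Real.mul_self_sqrt hq0.le
  have hs0 : 0 ≤ √q := Real.sqrt_nonneg _
  have hs7 : 7 / 5 ≤ √q := by
    refine Real.le_sqrt_of_sq_le ?_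
    norm_num
    linarith
  have h1 : ∀ t, ‖a + β t‖ ^ 4 ≤ ‖a‖ ^ 4 + 7 * ‖a‖ ^ 2 * ‖β t‖ ^ 2 + 5 * (q * b) * ‖β t‖ ^ 2 +
      4 * ‖a‖ ^ 2 * (a * starRingEnd ℂ (β t)).re := by
    intro t
    have e1 : ‖a + β t‖ ^ 2 = ‖a‖ ^ 2 + ‖β t‖ ^ 2 + 2 * (a * starRingEnd ℂ (β t)).re := by
      rw [← Complex.normSq_eq_norm_sq, ← Complex.normSq_eq_norm_sq, ← Complex.normSq_eq_norm_sq,
        Complex.normSq_add]
    have e2 : |(a * starRingEnd ℂ (β t)).re| ≤ ‖a‖ * ‖β t‖ := by
      refine (Complex.abs_re_le_norm _).trans ?_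
      rw [norm_mul, Complex.norm_conj]
    have e3 := hs t
    set r := (a * starRingEnd ℂ (β t)).re
    set A := ‖a‖
    set B := ‖β t‖
    have hA : 0 ≤ A := norm_nonneg _
    have hB : 0 ≤ B := norm_nonneg _
    have e4 : r ^ 2 ≤ A ^ 2 * B ^ 2 := by
      rw [← mul_pow, ← sq_abs r]
      exact pow_le_pow_left₀ (abs_nonneg _) e2 2
    have e5 : 4 * r * B ^ 2 ≤ A ^ 2 * B ^ 2 + 4 * B ^ 4 := by
      have e6 : r * B ^ 2 ≤ A * B * B ^ 2 :=
        mul_le_mul_of_nonneg_right ((le_abs_self r).trans e2) (sq_nonneg B)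
      have e7 : 0 ≤ (A - 2 * B) ^ 2 * B ^ 2 := by positivity
      nlinarith
    have e6 : ‖a + β t‖ ^ 4 = (A ^ 2 + B ^ 2 + 2 * r) ^ 2 := by
      rw [← e1]; ring
    rw [e6]
    have e7 : B ^ 4 ≤ q * b * B ^ 2 := by
      calc B ^ 4 = B ^ 2 * B ^ 2 := by ring
        _ ≤ q * b * B ^ 2 := mul_le_mul_of_nonneg_right e3 (sq_nonneg B)
    nlinarith
  have h3 : ∑ t, (a * starRingEnd ℂ (β t)).re = 0 := by
    rw [← Complex.re_sum, ← Finset.mul_sum, ← map_sum, h0]
    simp
  calc ∑ t, ‖a + β t‖ ^ 4 ≤ ∑ t : F, (‖a‖ ^ 4 + 7 * ‖a‖ ^ 2 * ‖β t‖ ^ 2 +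
        5 * (q * b) * ‖β t‖ ^ 2 + 4 * ‖a‖ ^ 2 * (a * starRingEnd ℂ (β t)).re) :=
        Finset.sum_le_sum fun t _ => h1 t
    _ = q * ‖a‖ ^ 4 + 7 * ‖a‖ ^ 2 * (q * b) + 5 * (q * b) * (q * b) := by
      rw [Finset.sum_add_distrib, Finset.sum_add_distrib, Finset.sum_add_distrib,
        ← Finset.mul_sum, ← Finset.mul_sum, ← Finset.mul_sum, h3, h2, mul_zero, add_zero,
        Finset.sum_const, nsmul_eq_mul, Finset.card_univ]
    _ ≤ q * (‖a‖ ^ 2 + 5 / 2 * √q * b) ^ 2 := by
      have e1 : q * (‖a‖ ^ 2 + 5 / 2 * √q * b) ^ 2 =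
          q * ‖a‖ ^ 4 + 5 * √q * (‖a‖ ^ 2 * (q * b)) + 25 / 4 * (√q * √q) * q * b ^ 2 := by
        ring
      rw [e1, hsq]
      have e2 : 0 ≤ (5 * √q - 7) * (‖a‖ ^ 2 * (q * b)) := by
        refine mul_nonneg (by linarith) (by positivity)
      have e3 : 0 ≤ q * q * b ^ 2 := by positivity
      nlinarith

/-- averaging over one coordinate -/
lemma step_pt {n : ℕ} {M : Type} [AddCommGroup M] [Module F M] [Fintype M]
    (ψ : AddChar F ℂ) (hψ : ψ.IsPrimitive) (e : M →ₗ[F] (Fin (n + 1) → F))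
    (c : (Fin (n + 1) → F) → ℂ) (y : Fin n → F) :
    ∑ t : F, √((∑ m, (‖fsum ψ c ((Fin.cons t y : Fin (n + 1) → F) + e m)‖ ^ 2) ^ 2) /
        (Fintype.card M : ℝ)) ≤
      (Fintype.card F : ℝ) * √((∑ m, (‖fsum ψ (fun b => c (Fin.cons 0 b)) (y + del e m)‖ ^ 2 +
        ∑ j ∈ Finset.univ.erase (0 : F), 5 / 2 * √(Fintype.card F : ℝ) *
          ‖fsum ψ (fun b => c (Fin.cons j b)) (y + del e m)‖ ^ 2) ^ 2) /
        (Fintype.card M : ℝ)) := by
  set q : ℝ := (Fintype.card F : ℝ) with hq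
  have hq0 : 0 < q := qpos
  set N : ℝ := (Fintype.card M : ℝ) with hN
  have hN0 : 0 < N := by rw [hN]; exact_mod_cast Fintype.card_pos
  set Q : F → (Fin n → F) → ℂ := fun j y => fsum ψ (fun b => c (Fin.cons j b)) y with hQ
  set X : F → ℝ := fun t => (∑ m, (‖fsum ψ c ((Fin.cons t y : Fin (n + 1) → F) + e m)‖ ^ 2) ^ 2) /
    N with hX
  have hX0 : ∀ t, 0 ≤ X t := fun t => by positivity
  -- Cauchy-Schwarz
  have h1 : ∑ t, √(X t) ≤ √(q * ∑ t, X t) := by
    refine Real.le_sqrt_of_sq_le ?_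
    have e1 := Finset.sum_mul_sq_le_sq_mul_sq Finset.univ (fun _ : F => (1 : ℝ)) (fun t => √(X t))
    simp only [one_mul, one_pow, Finset.sum_const, Finset.card_univ, nsmul_eq_mul, mul_one] at e1
    refine e1.trans (le_of_eq ?_)
    rw [← hq]
    congr 1
    exact Finset.sum_congr rfl fun t _ => Real.sq_sqrt (hX0 t)
  refine h1.trans ?_
  -- the shift
  have h2 : ∀ m : M, ∑ t, (‖fsum ψ c ((Fin.cons t y : Fin (n + 1) → F) + e m)‖ ^ 2) ^ 2 =
      ∑ t : F, ‖Q 0 (y + del e m) + ∑ j ∈ Finset.univ.erase (0 : F),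
        ψ (j * t) * Q j (y + del e m)‖ ^ 4 := by
    intro m
    have e1 : ∀ t, (‖fsum ψ c ((Fin.cons t y : Fin (n + 1) → F) + e m)‖ ^ 2) ^ 2 =
        ‖fsum ψ c (Fin.cons (t + fst e m) (y + del e m))‖ ^ 4 := by
      intro t
      rw [cons_add_code, ← pow_mul]
    rw [Finset.sum_congr rfl fun t _ => e1 t]
    refine (Equiv.sum_comp (Equiv.addRight (fst e m))
      (fun t => ‖fsum ψ c (Fin.cons t (y + del e m))‖ ^ 4)).trans ?_
    refine Finset.sum_congr rfl fun t _ => ?_
    rw [fsum_cons, ← Finset.add_sum_erase _ _ (Finset.mem_univ (0 : F))]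
    simp [hQ]
  -- the fourth moment
  have hpt : ∀ y, ∑ t : F, ‖Q 0 y + ∑ j ∈ Finset.univ.erase (0 : F), ψ (j * t) * Q j y‖ ^ 4 ≤
      q * (‖Q 0 y‖ ^ 2 + ∑ j ∈ Finset.univ.erase (0 : F), 5 / 2 * √q * ‖Q j y‖ ^ 2) ^ 2 := by
    intro y
    set b : ℝ := ∑ j ∈ Finset.univ.erase (0 : F), ‖Q j y‖ ^ 2 with hb
    have hb0 : 0 ≤ b := by positivity
    have e1 := fourth_field (Q 0 y)
      (fun t => ∑ j ∈ Finset.univ.erase (0 : F), ψ (j * t) * Q j y) b hb0 (by
        rw [Finset.sum_comm]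
        refine Finset.sum_eq_zero fun j hj => ?_
        rw [← Finset.sum_mul]
        have := AddChar.sum_mulShift j hψ
        rw [if_neg (Finset.ne_of_mem_erase hj)] at this
        rw [Finset.sum_congr rfl fun t _ => by rw [mul_comm j t], this]
        simp) (by
        have e2 := parseval_one ψ hψ (fun j => if j = 0 then 0 else Q j y)
        have e3 : ∀ t : F, ∑ j, ψ (j * t) * (if j = 0 then 0 else Q j y) =
            ∑ j ∈ Finset.univ.erase (0 : F), ψ (j * t) * Q j y := by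
          intro t
          rw [← Finset.add_sum_erase _ _ (Finset.mem_univ (0 : F)), if_pos rfl, mul_zero, zero_add]
          refine Finset.sum_congr rfl fun j hj => ?_
          rw [if_neg (Finset.ne_of_mem_erase hj)]
        have e4 : ∑ j, ‖(if j = 0 then (0 : ℂ) else Q j y)‖ ^ 2 = b := by
          rw [← Finset.add_sum_erase _ _ (Finset.mem_univ (0 : F)), if_pos rfl, norm_zero, hb]
          simp only [ne_eq, OfNat.ofNat_ne_zero, not_false_eq_true, zero_pow, zero_add]
          refine Finset.sum_congr rfl fun j hj => ?_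
          rw [if_neg (Finset.ne_of_mem_erase hj)]
        rw [e4] at e2
        rw [← e2]
        exact Finset.sum_congr rfl fun t _ => by rw [e3 t]) (by
        intro t
        have h1 : ‖∑ j ∈ Finset.univ.erase (0 : F), ψ (j * t) * Q j y‖ ≤
            ∑ j ∈ Finset.univ.erase (0 : F), 1 * ‖Q j y‖ := by
          refine (norm_sum_le _ _).trans (le_of_eq ?_)
          refine Finset.sum_congr rfl fun j _ => ?_
          rw [norm_mul, norm_psi]
        have h2 := pow_le_pow_left₀ (norm_nonneg _) h1 2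
        refine h2.trans ((Finset.sum_mul_sq_le_sq_mul_sq _ _ _).trans ?_)
        simp only [one_pow, Finset.sum_const, nsmul_eq_mul, mul_one]
        refine mul_le_mul_of_nonneg_right ?_ (Finset.sum_nonneg fun j _ => sq_nonneg _)
        exact_mod_cast Finset.card_le_univ _)
    have e2 : ∑ j ∈ Finset.univ.erase (0 : F), 5 / 2 * √q * ‖Q j y‖ ^ 2 = 5 / 2 * √q * b := by
      rw [hb, ← Finset.mul_sum]
    rw [e2]
    exact e1
  have h3 : ∑ t, X t ≤ q * ((∑ m, (‖Q 0 (y + del e m)‖ ^ 2 +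
      ∑ j ∈ Finset.univ.erase (0 : F), 5 / 2 * √q * ‖Q j (y + del e m)‖ ^ 2) ^ 2) / N) := by
    rw [hX, ← Finset.sum_div, Finset.sum_comm, ← mul_div_assoc]
    refine div_le_div_of_nonneg_right ?_ hN0.le
    rw [Finset.mul_sum]
    refine Finset.sum_le_sum fun m _ => ?_
    rw [h2 m]
    exact hpt (y + del e m)
  calc √(q * ∑ t, X t) ≤ √(q * (q * ((∑ m, (‖Q 0 (y + del e m)‖ ^ 2 +
      ∑ j ∈ Finset.univ.erase (0 : F), 5 / 2 * √q * ‖Q j (y + del e m)‖ ^ 2) ^ 2) / N))) := by
        gcongr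
    _ = _ := by
        rw [← mul_assoc, Real.sqrt_mul (by positivity), Real.sqrt_mul_self hq0.le]

/-- **The orbitwise fourth moment inequality.** -/
theorem orb_le (ψ : AddChar F ℂ) (hψ : ψ.IsPrimitive) (n : ℕ) :
    ∀ (M : Type) [AddCommGroup M] [Module F M] [Fintype M] (e : M →ₗ[F] (Fin n → F)) (j : ℕ)
      (c : (Fin n → F) → ℂ),
      (∀ b, ¬ (Fintype.card M ≤ Fintype.card F ^ j * (van e b).card) → c b = 0) →
      orb e (fun y => ‖fsum ψ c y‖ ^ 2) ≤
        (Fintype.card F : ℝ) ^ n * (5 / 2 * (Fintype.card F : ℝ)) ^ j *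
          ∑ b, ‖c b‖ ^ 2 := by
  set q : ℝ := (Fintype.card F : ℝ) with hq
  have hq0 : 0 < q := qpos
  have hq1 : 1 ≤ q := by
    rw [hq]; exact_mod_cast Fintype.card_pos
  set K : ℝ := 5 / 2 * q with hK
  have hsq1 : 1 ≤ √q := by
    rw [Real.one_le_sqrt]; exact hq1
  have hK1 : 1 ≤ K := by
    rw [hK]
    nlinarith
  induction n with
  | zero =>
    intro M _ _ _ e j c _
    have hN0 : (0 : ℝ) < (Fintype.card M : ℝ) := by exact_mod_cast Fintype.card_pos
    have h1 : ∀ y : Fin 0 → F, fsum ψ c y = c default := by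
      intro y
      simp [fsum]
    have hKj : (1 : ℝ) ≤ K ^ j := one_le_pow₀ hK1
    have h2 : orb e (fun y => ‖fsum ψ c y‖ ^ 2) = ‖c default‖ ^ 2 := by
      simp only [orb, h1, Finset.sum_const, Finset.card_univ, nsmul_eq_mul]
      rw [mul_div_assoc, mul_div_left_comm, div_self hN0.ne', mul_one, Real.sqrt_sq (sq_nonneg _)]
      simp
    have h3 : ∑ b, ‖c b‖ ^ 2 = ‖c default‖ ^ 2 := by simp
    rw [h2, h3, pow_zero, one_mul]
    have : 0 ≤ ‖c default‖ ^ 2 := sq_nonneg _
    nlinarith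
  | succ n ih =>
    intro M _ _ _ e j c hc
    have hN0 : (0 : ℝ) < (Fintype.card M : ℝ) := by exact_mod_cast Fintype.card_pos
    have hsplit : orb e (fun y => ‖fsum ψ c y‖ ^ 2) = ∑ y : Fin n → F, ∑ t : F,
        √((∑ m, (‖fsum ψ c ((Fin.cons t y : Fin (n + 1) → F) + e m)‖ ^ 2) ^ 2) /
          (Fintype.card M : ℝ)) := by
      rw [orb, ← (Fin.consEquiv (fun _ : Fin (n + 1) => F)).sum_comp, Fintype.sum_prod_type,
        Finset.sum_comm]
      rfl
    have hsumc : ∑ b, ‖c b‖ ^ 2 = ∑ j, ∑ b : Fin n → F, ‖c (Fin.cons j b)‖ ^ 2 := by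
      rw [← (Fin.consEquiv (fun _ : Fin (n + 1) => F)).sum_comp, Fintype.sum_prod_type]
      rfl
    by_cases he : ∀ m, fst e m = 0
    · -- the first coordinate is a loop
      set ct : F → (Fin n → F) → ℂ := fun t b => ∑ j, ψ (j * t) * c (Fin.cons j b) with hct
      have h1 : ∀ (t : F) (y : Fin n → F), fsum ψ c (Fin.cons t y) = fsum ψ (ct t) y := by
        intro t y
        rw [fsum_cons]
        simp only [fsum, hct, Finset.mul_sum, Finset.sum_mul]
        rw [Finset.sum_comm]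
        refine Finset.sum_congr rfl fun b _ => Finset.sum_congr rfl fun j _ => ?_
        ring
      have h2 : orb e (fun y => ‖fsum ψ c y‖ ^ 2) =
          ∑ t, orb (del e) (fun y => ‖fsum ψ (ct t) y‖ ^ 2) := by
        rw [hsplit, Finset.sum_comm]
        refine Finset.sum_congr rfl fun t _ => ?_
        rw [orb]
        refine Finset.sum_congr rfl fun y _ => ?_
        congr 2
        refine Finset.sum_congr rfl fun m _ => ?_
        rw [cons_add_code, he m, add_zero, h1]
      have h3 : ∀ t, orb (del e) (fun y => ‖fsum ψ (ct t) y‖ ^ 2) ≤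
          q ^ n * K ^ j * ∑ b, ‖ct t b‖ ^ 2 := by
        intro t
        refine ih M (del e) j (ct t) fun b hb => ?_
        rw [hct]
        refine Finset.sum_eq_zero fun i _ => ?_
        rw [hc, mul_zero]
        rw [van_loop e he]
        exact hb
      rw [h2]
      calc ∑ t, orb (del e) (fun y => ‖fsum ψ (ct t) y‖ ^ 2)
          ≤ ∑ t, q ^ n * K ^ j * ∑ b, ‖ct t b‖ ^ 2 := Finset.sum_le_sum fun t _ => h3 t
        _ = q ^ n * K ^ j * ∑ b : Fin n → F, ∑ t, ‖∑ j, ψ (j * t) * c (Fin.cons j b)‖ ^ 2 := by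
            rw [← Finset.mul_sum, Finset.sum_comm]
        _ = q ^ n * K ^ j * ∑ b : Fin n → F, q * ∑ j, ‖c (Fin.cons j b)‖ ^ 2 := by
            congr 1
            exact Finset.sum_congr rfl fun b _ => parseval_one ψ hψ _
        _ = _ := by
            rw [hsumc, ← Finset.mul_sum, Finset.sum_comm]
            ring
    · push Not at he
      obtain ⟨m₀, hm₀⟩ := he
      set m₁ : M := (fst e m₀)⁻¹ • m₀ with hm₁
      have h₁ : fst e m₁ = 1 := by
        rw [hm₁, map_smul, smul_eq_mul, inv_mul_cancel₀ hm₀]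
      have hcard : Fintype.card M = Fintype.card F * Fintype.card (LinearMap.ker (fst e)) := by
        have := card_split e m₁ h₁
        exact_mod_cast this
      set A : F → ℝ := fun i => ∑ b : Fin n → F, ‖c (Fin.cons i b)‖ ^ 2 with hA
      have hA0 : ∀ i, 0 ≤ A i := fun i => Finset.sum_nonneg fun b _ => sq_nonneg _
      -- the trivial part
      have h0 : orb (del e) (fun y => ‖fsum ψ (fun b => c (Fin.cons 0 b)) y‖ ^ 2) ≤
          q ^ n * K ^ j * A 0 := by
        refine ih M (del e) j _ fun b hb => hc _ ?_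
        rw [van_zero]
        exact hb
      -- the other parts
      have hj : ∀ i ∈ Finset.univ.erase (0 : F),
          orb (del e) (fun y => 5 / 2 * √q * ‖fsum ψ (fun b => c (Fin.cons i b)) y‖ ^ 2) ≤
            q ^ n * K ^ j * A i := by
        intro i hi
        have hi0 : i ≠ 0 := Finset.ne_of_mem_erase hi
        rw [orb_smul (del e) _ (by positivity)]
        have e1 := orb_del_le e m₁ h₁ (fun y => ‖fsum ψ (fun b => c (Fin.cons i b)) y‖ ^ 2)
        rw [← hq] at e1
        rcases Nat.eq_zero_or_pos j with hj0 | hj0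
        · have e2 : ∀ b, c (Fin.cons i b) = 0 := by
            intro b
            refine hc _ ?_
            rw [van_con e hi0, hj0, pow_zero, one_mul, not_le, hcard]
            have e3 : (van (con e) b).card ≤ Fintype.card (LinearMap.ker (fst e)) := by
              rw [← Finset.card_univ]
              exact Finset.card_le_card (Finset.filter_subset _ _)
            have e4 : 0 < Fintype.card (LinearMap.ker (fst e)) := Fintype.card_pos
            have e5 : 1 < Fintype.card F := Fintype.one_lt_card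
            nlinarith
          have e3 : orb (del e) (fun y => ‖fsum ψ (fun b => c (Fin.cons i b)) y‖ ^ 2) = 0 := by
            simp [orb, fsum, e2]
          rw [e3, mul_zero]
          have := hA0 i
          positivity
        · obtain ⟨j', rfl⟩ : ∃ j', j = j' + 1 := ⟨j - 1, by omega⟩
          have e2 := ih (LinearMap.ker (fst e)) (con e) j' (fun b => c (Fin.cons i b))
            (fun b hb => hc _ (by
              rw [van_con e hi0, hcard, pow_succ', mul_assoc]
              intro h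
              exact hb (Nat.le_of_mul_le_mul_left h Fintype.card_pos)))
          calc 5 / 2 * √q * orb (del e) (fun y => ‖fsum ψ (fun b => c (Fin.cons i b)) y‖ ^ 2)
              ≤ 5 / 2 * √q * (√q * (q ^ n * K ^ j' * A i)) := by
                refine mul_le_mul_of_nonneg_left (e1.trans ?_) (by positivity)
                exact mul_le_mul_of_nonneg_left e2 (Real.sqrt_nonneg _)
            _ = 5 / 2 * (√q * √q) * (q ^ n * K ^ j' * A i) := by ring
            _ = q ^ n * K ^ (j' + 1) * A i := by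
                rw [Real.mul_self_sqrt hq0.le, pow_succ, hK]
                ring
      have hmain : orb e (fun y => ‖fsum ψ c y‖ ^ 2) ≤
          q * orb (del e) (fun y => ‖fsum ψ (fun b => c (Fin.cons 0 b)) y‖ ^ 2 +
            ∑ i ∈ Finset.univ.erase (0 : F),
              5 / 2 * √q * ‖fsum ψ (fun b => c (Fin.cons i b)) y‖ ^ 2) := by
        rw [hsplit, orb, Finset.mul_sum]
        exact Finset.sum_le_sum fun y _ => step_pt ψ hψ e c y
      refine hmain.trans ?_
      have h4 := orb_add_le (del e) (fun y => ‖fsum ψ (fun b => c (Fin.cons 0 b)) y‖ ^ 2)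
        (fun y => ∑ i ∈ Finset.univ.erase (0 : F),
              5 / 2 * √q * ‖fsum ψ (fun b => c (Fin.cons i b)) y‖ ^ 2)
      have h5 := orb_sum_le (Finset.univ.erase (0 : F)) (del e)
        (fun i y => 5 / 2 * √q * ‖fsum ψ (fun b => c (Fin.cons i b)) y‖ ^ 2)
      have h6 := Finset.sum_le_sum hj
      have h7 : ∑ b, ‖c b‖ ^ 2 = A 0 + ∑ i ∈ Finset.univ.erase (0 : F), A i := by
        rw [hsumc]
        exact (Finset.add_sum_erase _ _ (Finset.mem_univ _)).symm
      rw [h7]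
      calc q * orb (del e) (fun y => ‖fsum ψ (fun b => c (Fin.cons 0 b)) y‖ ^ 2 +
            ∑ i ∈ Finset.univ.erase (0 : F),
              5 / 2 * √q * ‖fsum ψ (fun b => c (Fin.cons i b)) y‖ ^ 2)
          ≤ q * (q ^ n * K ^ j * A 0 + ∑ i ∈ Finset.univ.erase (0 : F), q ^ n * K ^ j * A i) := by
            refine mul_le_mul_of_nonneg_left ?_ hq0.le
            linarith
        _ = _ := by
            rw [← Finset.mul_sum]
            ring

end

end Pool.Agent.H18.DTO
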