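import Pool.Agent.H25.DTO.Glob

/-!
A fourth moment inequality along the orbits of a linear code, proved by deletion and contraction
of coordinates. Builds on the Fourier analysis of helper76 and helper25.
-/

namespace Pool.Agent.H18.DTO

open Finset Module Pool.Agent.H76.DTO Pool.Agent.H25.DTO
open scoped Classical

noncomputable section

set_option linter.unusedSectionVars false

variable {F : Type} [Field F] [Fintype F]

section Orb

variable {n : ℕ} {M : Type} [AddCommGroup M] [Module F M] [Fintype M]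

/-- the sum over all vectors of the quadratic mean of `h` along the translates by the vectors
`e m` -/
def orb (e : M →ₗ[F] (Fin n → F)) (h : (Fin n → F) → ℝ) : ℝ :=
  ∑ f, √((∑ m, h (f + e m) ^ 2) / (Fintype.card M : ℝ))

/-- the vector of the values along an orbit -/
def ovec (e : M →ₗ[F] (Fin n → F)) (h : (Fin n → F) → ℝ) (f : Fin n → F) : EuclideanSpace ℝ M :=
  WithLp.toLp 2 (fun m => h (f + e m))

lemma norm_ovec (e : M →ₗ[F] (Fin n → F)) (h : (Fin n → F) → ℝ) (f : Fin n → F) :
    ‖ovec e h f‖ = √(∑ m, h (f + e m) ^ 2) := by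
  rw [EuclideanSpace.norm_eq]
  simp [ovec]

lemma orb_eq (e : M →ₗ[F] (Fin n → F)) (h : (Fin n → F) → ℝ) :
    orb e h = (∑ f, ‖ovec e h f‖) / √(Fintype.card M : ℝ) := by
  rw [orb, Finset.sum_div]
  refine Finset.sum_congr rfl fun f _ => ?_
  rw [norm_ovec, Real.sqrt_div (Finset.sum_nonneg fun m _ => sq_nonneg _)]

lemma orb_add_le (e : M →ₗ[F] (Fin n → F)) (h h' : (Fin n → F) → ℝ) :
    orb e (fun y => h y + h' y) ≤ orb e h + orb e h' := by
  rw [orb_eq, orb_eq, orb_eq, ← add_div, ← Finset.sum_add_distrib]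
  refine div_le_div_of_nonneg_right (Finset.sum_le_sum fun f _ => ?_) (Real.sqrt_nonneg _)
  refine le_trans (le_of_eq ?_) (norm_add_le _ _)
  congr 1

lemma orb_smul (e : M →ₗ[F] (Fin n → F)) (h : (Fin n → F) → ℝ) {c : ℝ} (hc : 0 ≤ c) :
    orb e (fun y => c * h y) = c * orb e h := by
  rw [orb_eq, orb_eq, ← mul_div_assoc, Finset.mul_sum]
  congr 1
  refine Finset.sum_congr rfl fun f _ => ?_
  have h1 : ovec e (fun y => c * h y) f = c • ovec e h f := by
    ext m
    simp [ovec]
  rw [h1, norm_smul, Real.norm_eq_abs, abs_of_nonneg hc]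

lemma orb_zero (e : M →ₗ[F] (Fin n → F)) : orb e (fun _ => 0) = 0 := by
  simp [orb]

lemma orb_sum_le {ι : Type} (s : Finset ι) (e : M →ₗ[F] (Fin n → F))
    (h : ι → (Fin n → F) → ℝ) :
    orb e (fun y => ∑ i ∈ s, h i y) ≤ ∑ i ∈ s, orb e (h i) := by
  induction s using Finset.induction_on with
  | empty => simp [orb_zero]
  | insert i s hi ih =>
    rw [Finset.sum_insert hi]
    have h1 : (fun y => ∑ j ∈ insert i s, h j y) = fun y => h i y + ∑ j ∈ s, h j y := by
      funext y
      rw [Finset.sum_insert hi]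
    rw [h1]
    exact (orb_add_le e (h i) (fun y => ∑ j ∈ s, h j y)).trans (by linarith)

/-- the part of the code which vanishes on the support of `b` -/
def van (e : M →ₗ[F] (Fin n → F)) (b : Fin n → F) : Finset M :=
  Finset.univ.filter (fun m => ∀ i, b i ≠ 0 → e m i = 0)

end Orb

section Step

variable {n : ℕ} {M : Type} [AddCommGroup M] [Module F M] [Fintype M]

/-- deletion of the first coordinate -/
def del (e : M →ₗ[F] (Fin (n + 1) → F)) : M →ₗ[F] (Fin n → F) :=
  (LinearMap.funLeft F F Fin.succ).comp e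

lemma del_apply (e : M →ₗ[F] (Fin (n + 1) → F)) (m : M) (i : Fin n) : del e m i = e m i.succ := rfl

/-- the first coordinate -/
def fst (e : M →ₗ[F] (Fin (n + 1) → F)) : M →ₗ[F] F := (LinearMap.proj 0).comp e

lemma fst_apply (e : M →ₗ[F] (Fin (n + 1) → F)) (m : M) : fst e m = e m 0 := rfl

/-- contraction of the first coordinate -/
def con (e : M →ₗ[F] (Fin (n + 1) → F)) : LinearMap.ker (fst e) →ₗ[F] (Fin n → F) :=
  (del e).comp (LinearMap.ker (fst e)).subtype

lemma con_apply (e : M →ₗ[F] (Fin (n + 1) → F)) (m : LinearMap.ker (fst e)) :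
    con e m = del e m.1 := rfl

lemma cons_add_code (e : M →ₗ[F] (Fin (n + 1) → F)) (t : F) (y : Fin n → F) (m : M) :
    (Fin.cons t y : Fin (n + 1) → F) + e m = Fin.cons (t + fst e m) (y + del e m) := by
  funext i
  refine Fin.cases ?_ (fun i => ?_) i
  · simp [fst_apply]
  · simp [del_apply]

lemma van_zero (e : M →ₗ[F] (Fin (n + 1) → F)) (b : Fin n → F) :
    van e (Fin.cons 0 b) = van (del e) b := by
  ext m
  simp only [van, Finset.mem_filter, Finset.mem_univ, true_and]
  constructor
  · intro h i hi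
    exact h i.succ (by simpa using hi)
  · intro h i
    refine Fin.cases ?_ (fun i => ?_) i
    · simp
    · intro hi
      exact h i (by simpa using hi)

lemma van_loop (e : M →ₗ[F] (Fin (n + 1) → F)) (he : ∀ m, fst e m = 0) (j : F) (b : Fin n → F) :
    van e (Fin.cons j b) = van (del e) b := by
  ext m
  simp only [van, Finset.mem_filter, Finset.mem_univ, true_and]
  constructor
  · intro h i hi
    exact h i.succ (by simpa using hi)
  · intro h i
    refine Fin.cases ?_ (fun i => ?_) i
    · intro _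
      exact he m
    · intro hi
      exact h i (by simpa using hi)

lemma van_con (e : M →ₗ[F] (Fin (n + 1) → F)) {j : F} (hj : j ≠ 0) (b : Fin n → F) :
    (van e (Fin.cons j b)).card = (van (con e) b).card := by
  refine (Finset.card_bij (fun (m : LinearMap.ker (fst e)) _ => m.1) ?_ ?_ ?_).symm
  · intro m hm
    simp only [van, Finset.mem_filter, Finset.mem_univ, true_and] at hm ⊢
    intro i
    refine Fin.cases ?_ (fun i => ?_) i
    · intro _
      exact m.2
    · intro hi
      exact hm i (by simpa using hi)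
  · intro m _ m' _ h
    exact Subtype.ext h
  · intro m hm
    simp only [van, Finset.mem_filter, Finset.mem_univ, true_and] at hm
    refine ⟨⟨m, ?_⟩, ?_, rfl⟩
    · exact hm 0 (by simpa using hj)
    · simp only [van, Finset.mem_filter, Finset.mem_univ, true_and]
      intro i hi
      exact hm i.succ (by simpa using hi)

/-- splitting of a sum over the code by the value of the first coordinate -/
lemma sum_split (e : M →ₗ[F] (Fin (n + 1) → F)) (m₁ : M) (h₁ : fst e m₁ = 1) (Ψ : M → ℝ) :
    ∑ m, Ψ m = ∑ s : F, ∑ m : LinearMap.ker (fst e), Ψ (s • m₁ + m.1) := by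
  rw [← Fintype.sum_prod_type' (f := fun (s : F) (m : LinearMap.ker (fst e)) => Ψ (s • m₁ + m.1))]
  refine (Fintype.sum_equiv
    { toFun := fun p : F × LinearMap.ker (fst e) => p.1 • m₁ + p.2.1
      invFun := fun m => (fst e m, ⟨m - fst e m • m₁, by
        rw [LinearMap.mem_ker, map_sub, map_smul, h₁]
        simp⟩)
      left_inv := ?_
      right_inv := ?_ } _ _ (fun p => rfl)).symm
  · rintro ⟨s, m, hm⟩
    have hm' : fst e m = 0 := hm
    have h2 : fst e (s • m₁ + m) = s := by
      rw [map_add, map_smul, h₁, hm']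
      simp
    refine Prod.ext h2 (Subtype.ext ?_)
    simp only [h2]
    abel
  · intro m
    simp

lemma card_split (e : M →ₗ[F] (Fin (n + 1) → F)) (m₁ : M) (h₁ : fst e m₁ = 1) :
    (Fintype.card M : ℝ) = (Fintype.card F : ℝ) * (Fintype.card (LinearMap.ker (fst e)) : ℝ) := by
  have h := sum_split e m₁ h₁ (fun _ => 1)
  simpa using h

/-- contraction costs at most a factor `√q` -/
lemma orb_del_le (e : M →ₗ[F] (Fin (n + 1) → F)) (m₁ : M) (h₁ : fst e m₁ = 1)
    (h : (Fin n → F) → ℝ) :
    orb (del e) h ≤ √(Fintype.card F : ℝ) * orb (con e) h := by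
  set q : ℝ := (Fintype.card F : ℝ) with hq
  have hq0 : 0 < q := qpos
  set N₀ : ℝ := (Fintype.card (LinearMap.ker (fst e)) : ℝ) with hN₀
  have hN₀0 : 0 < N₀ := by rw [hN₀]; exact_mod_cast Fintype.card_pos
  have h2 : ∀ y, √((∑ m, h (y + del e m) ^ 2) / (Fintype.card M : ℝ)) ≤
      ∑ s : F, (√q)⁻¹ * √((∑ m : LinearMap.ker (fst e),
        h (y + s • del e m₁ + con e m) ^ 2) / N₀) := by
    intro y
    rw [card_split e m₁ h₁, sum_split e m₁ h₁]
    have e1 : ∀ (s : F) (m : LinearMap.ker (fst e)),
        h (y + del e (s • m₁ + m.1)) = h (y + s • del e m₁ + con e m) := by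
      intro s m
      rw [map_add, map_smul, con_apply, add_assoc]
    simp only [e1]
    set X : F → ℝ := fun s => ∑ m : LinearMap.ker (fst e),
      h (y + s • del e m₁ + con e m) ^ 2 with hX
    have hX0 : ∀ s, 0 ≤ X s := fun s => Finset.sum_nonneg fun m _ => sq_nonneg _
    have e2 : √(∑ s, X s) ≤ ∑ s, √(X s) := by
      rw [Real.sqrt_le_left (Finset.sum_nonneg fun s _ => Real.sqrt_nonneg _)]
      calc ∑ s, X s = ∑ s, √(X s) ^ 2 :=
            Finset.sum_congr rfl fun s _ => (Real.sq_sqrt (hX0 s)).symm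
        _ ≤ (∑ s, √(X s)) ^ 2 :=
            Finset.sum_sq_le_sq_sum_of_nonneg fun s _ => Real.sqrt_nonneg _
    calc √((∑ s, X s) / (q * N₀)) = (√(∑ s, X s)) / (√q * √N₀) := by
          rw [Real.sqrt_div (Finset.sum_nonneg fun s _ => hX0 s), Real.sqrt_mul hq0.le]
      _ ≤ (∑ s, √(X s)) / (√q * √N₀) := by gcongr
      _ = ∑ s, (√q)⁻¹ * √(X s / N₀) := by
          rw [Finset.sum_div]
          refine Finset.sum_congr rfl fun s _ => ?_
          rw [Real.sqrt_div (hX0 s)]
          have : √q ≠ 0 := by positivity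
          have : √N₀ ≠ 0 := by positivity
          field_simp
  calc orb (del e) h ≤ ∑ y, ∑ s : F, (√q)⁻¹ * √((∑ m : LinearMap.ker (fst e),
        h (y + s • del e m₁ + con e m) ^ 2) / N₀) := Finset.sum_le_sum fun y _ => h2 y
    _ = ∑ s : F, (√q)⁻¹ * orb (con e) h := by
        rw [Finset.sum_comm]
        refine Finset.sum_congr rfl fun s _ => ?_
        rw [← Finset.mul_sum]
        congr 1
        exact Equiv.sum_comp (Equiv.addRight (s • del e m₁))
          (fun y => √((∑ m : LinearMap.ker (fst e), h (y + con e m) ^ 2) / N₀))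
    _ = √q * orb (con e) h := by
        rw [Finset.sum_const, Finset.card_univ, nsmul_eq_mul, ← hq]
        have h3 : q = √q * √q := (Real.mul_self_sqrt hq0.le).symm
        have h4 : √q ≠ 0 := by positivity
        calc q * ((√q)⁻¹ * orb (con e) h) = (√q * √q) * ((√q)⁻¹ * orb (con e) h) := by
              rw [← h3]
          _ = _ := by field_simp

end Step

end

end Pool.Agent.H18.DTO
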