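import Pool.Agent.H18.DTO.Level
import Pool.Agent.H25.DTO.Sound

/-!
The Fourier weight of folded labels on vectors of small rank, and the polynomial decay of the value
of the gap instances.
-/

namespace Pool.Agent.H18.DTO

open Finset Module Pool.Agent.H76.DTO Pool.Agent.H25.DTO
open scoped Classical

noncomputable section

set_option linter.unusedSectionVars false

variable {F G : Type} [Field F] [Fintype F] [AddCommGroup G] [Module F G] [Fintype G] {n : ℕ}
variable (P : Frame F G n)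

/-- the number of functionals in terms of those vanishing on a support -/
lemma card_van (b : Fin n → F) :
    Fintype.card (Dual F G) = Fintype.card F ^ finrank F (spn P b) * (van P.ev b).card := by
  have h1 : Fintype.card (spn P b).dualAnnihilator = (van P.ev b).card := by
    rw [← Fintype.card_coe]
    refine Fintype.card_congr (Equiv.subtypeEquivRight fun A => ?_)
    simp only [van, Finset.mem_filter, Finset.mem_univ, true_and]
    rw [Submodule.mem_dualAnnihilator]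
    constructor
    · intro h i hi
      exact h _ (Submodule.subset_span ⟨i, hi, rfl⟩)
    · intro h w hw
      refine Submodule.span_induction ?_ ?_ ?_ ?_ hw
      · rintro x ⟨i, hi, rfl⟩
        exact h i hi
      · simp
      · intro x y _ _ hx hy; rw [map_add, hx, hy, add_zero]
      · intro c x _ hx; rw [map_smul, hx, smul_zero]
  rw [← h1, Module.card_eq_pow_finrank (K := F) (V := (spn P b).dualAnnihilator),
    Module.card_eq_pow_finrank (K := F) (V := Dual F G), ← pow_add,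
    Subspace.finrank_add_finrank_dualAnnihilator_eq, Subspace.dual_finrank_eq]

/-- duality -/
lemma dual_one (ψ : AddChar F ℂ) (a : (Fin n → F) → ℝ) (h0 : ∀ f, 0 ≤ a f)
    (Q : (Fin n → F) → Prop) :
    (Fintype.card F : ℝ) ^ n * ∑ b, (if Q b then ‖fc ψ a b‖ ^ 2 else 0) ≤
      ∑ f, a f * ‖fsum ψ (fun b => if Q b then fc ψ a b else 0) f‖ := by
  set q : ℝ := (Fintype.card F : ℝ) with hq
  have hq0 : 0 < q := qpos
  set c : (Fin n → F) → ℂ := fun b => if Q b then fc ψ a b else 0 with hc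
  set X : ℝ := ∑ b, if Q b then ‖fc ψ a b‖ ^ 2 else 0 with hX
  have hX0 : 0 ≤ X := Finset.sum_nonneg fun b _ => by split_ifs <;> positivity
  have h2 : ((q ^ n * X : ℝ) : ℂ) = ∑ f, (a f : ℂ) * starRingEnd ℂ (fsum ψ c f) := by
    have e1 : ((X : ℝ) : ℂ) = ∑ b, fc ψ a b * starRingEnd ℂ (c b) := by
      rw [hX, Complex.ofReal_sum]
      refine Finset.sum_congr rfl fun b _ => ?_
      rw [hc]
      simp only
      split_ifs with h
      · rw [Complex.mul_conj, Complex.normSq_eq_norm_sq]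
      · simp
    rw [Complex.ofReal_mul, e1, Finset.mul_sum]
    have e2 : ∀ b, ((q ^ n : ℝ) : ℂ) * (fc ψ a b * starRingEnd ℂ (c b)) =
        ∑ f, (a f : ℂ) * (starRingEnd ℂ (c b) * ψ (- dot b f)) := by
      intro b
      have hqn : ((q ^ n : ℝ) : ℂ) ≠ 0 := by
        exact_mod_cast (pow_pos hq0 n).ne'
      rw [fc]
      have : ((Fintype.card F : ℂ) ^ n) = ((q ^ n : ℝ) : ℂ) := by rw [hq]; push_cast; rfl
      rw [this, Finset.sum_div, Finset.sum_mul, Finset.mul_sum]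
      refine Finset.sum_congr rfl fun f _ => ?_
      field_simp
    rw [Finset.sum_congr rfl fun b _ => e2 b, Finset.sum_comm]
    refine Finset.sum_congr rfl fun f _ => ?_
    rw [fsum, map_sum, Finset.mul_sum]
    refine Finset.sum_congr rfl fun b _ => ?_
    rw [map_mul, ← AddChar.map_neg_eq_conj]
    rfl
  have e1 : q ^ n * X = ‖((q ^ n * X : ℝ) : ℂ)‖ := by
    rw [Complex.norm_real, Real.norm_eq_abs, abs_of_nonneg (by positivity)]
  rw [e1, h2]
  refine (norm_sum_le _ _).trans (le_of_eq ?_)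
  refine Finset.sum_congr rfl fun f _ => ?_
  rw [norm_mul, Complex.norm_real, Real.norm_eq_abs, abs_of_nonneg (h0 f), Complex.norm_conj]

/-- Cauchy-Schwarz along one orbit -/
lemma cs_orbit {M : Type} [Fintype M] (a φ : M → ℝ) (h0 : ∀ m, 0 ≤ a m)
    (h1 : ∀ m, a m ≤ 1) (hs : ∑ m, a m ≤ 1) :
    (∑ m, a m * φ m) ^ 2 ≤ (∑ m, a m) * √(∑ m, (φ m ^ 2) ^ 2) := by
  have e1 := Finset.sum_mul_sq_le_sq_mul_sq Finset.univ (fun m => √(a m))
    (fun m => √(a m) * φ m)
  have e2 : ∀ m, √(a m) * (√(a m) * φ m) = a m * φ m := fun m => by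
    rw [← mul_assoc, Real.mul_self_sqrt (h0 m)]
  have e3 : ∀ m, √(a m) ^ 2 = a m := fun m => Real.sq_sqrt (h0 m)
  have e4 : ∀ m, (√(a m) * φ m) ^ 2 = a m * φ m ^ 2 := fun m => by
    rw [mul_pow, e3]
  simp only [e2, e3, e4] at e1
  refine e1.trans (mul_le_mul_of_nonneg_left ?_ (Finset.sum_nonneg fun m _ => h0 m))
  have e5 := Finset.sum_mul_sq_le_sq_mul_sq Finset.univ a (fun m => φ m ^ 2)
  have e6 : ∑ m, a m ^ 2 ≤ 1 := by
    refine le_trans (Finset.sum_le_sum fun m _ => ?_) hs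
    calc a m ^ 2 = a m * a m := by ring
      _ ≤ a m * 1 := mul_le_mul_of_nonneg_left (h1 m) (h0 m)
      _ = a m := mul_one _
  refine Real.le_sqrt_of_sq_le (e5.trans ?_)
  have e7 : 0 ≤ ∑ m, (φ m ^ 2) ^ 2 := Finset.sum_nonneg fun m _ => sq_nonneg _
  nlinarith

/-- **The weight of folded labels on vectors of rank at most `j`.** -/
theorem weight_rank (ψ : AddChar F ℂ) (hψ : ψ.IsPrimitive) (a : (Fin n → F) → ℝ)
    (h0 : ∀ f, 0 ≤ a f) (h1 : ∀ f, a f ≤ 1)
    (ha : ∀ g, ∑ A : Dual F G, a (g + P.ev A) ≤ 1)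
    (hm : ∑ f, a f = (Fintype.card F : ℝ) ^ n / (Fintype.card G : ℝ)) (j : ℕ) :
    (Fintype.card G : ℝ) * ∑ b, (if finrank F (spn P b) ≤ j then ‖fc ψ a b‖ ^ 2 else 0) ≤
      (5 / 2 * (Fintype.card F : ℝ)) ^ j / √(Fintype.card G : ℝ) := by
  set q : ℝ := (Fintype.card F : ℝ) with hq
  have hq0 : 0 < q := qpos
  set N : ℝ := (Fintype.card G : ℝ) with hN
  have hN0 : 0 < N := by rw [hN]; exact_mod_cast Fintype.card_pos
  have hND : (Fintype.card (Dual F G) : ℝ) = N := by rw [card_dual]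
  set K : ℝ := 5 / 2 * q with hK
  set Q : (Fin n → F) → Prop := fun b => finrank F (spn P b) ≤ j with hQ
  set c : (Fin n → F) → ℂ := fun b => if Q b then fc ψ a b else 0 with hc
  set X : ℝ := ∑ b, if Q b then ‖fc ψ a b‖ ^ 2 else 0 with hX
  have hX0 : 0 ≤ X := Finset.sum_nonneg fun b _ => by split_ifs <;> positivity
  have hXc : ∑ b, ‖c b‖ ^ 2 = X := by
    rw [hX]
    refine Finset.sum_congr rfl fun b _ => ?_
    rw [hc]
    simp only
    split_ifs <;> simp
  have e1 : q ^ n * X ≤ ∑ f, a f * ‖fsum ψ c f‖ := by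
    have e := dual_one ψ a h0 Q
    convert e
  -- averaging over the orbits
  have e2 : ∑ f, ∑ A : Dual F G, a (f + P.ev A) * ‖fsum ψ c (f + P.ev A)‖ =
      N * ∑ f, a f * ‖fsum ψ c f‖ := by
    rw [Finset.sum_comm]
    have : ∀ A : Dual F G, ∑ f, a (f + P.ev A) * ‖fsum ψ c (f + P.ev A)‖ =
        ∑ f, a f * ‖fsum ψ c f‖ := fun A =>
      Equiv.sum_comp (Equiv.addRight (P.ev A)) (fun f => a f * ‖fsum ψ c f‖)
    rw [Finset.sum_congr rfl fun A _ => this A, Finset.sum_const, Finset.card_univ, nsmul_eq_mul,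
      hND]
  have e3 : ∑ f, ∑ A : Dual F G, a (f + P.ev A) = q ^ n := by
    rw [Finset.sum_comm]
    have : ∀ A : Dual F G, ∑ f, a (f + P.ev A) = ∑ f, a f := fun A =>
      Equiv.sum_comp (Equiv.addRight (P.ev A)) a
    rw [Finset.sum_congr rfl fun A _ => this A, Finset.sum_const, Finset.card_univ, nsmul_eq_mul,
      hND, hm, mul_div_cancel₀ _ hN0.ne']
  have e4 : (∑ f, ∑ A : Dual F G, a (f + P.ev A) * ‖fsum ψ c (f + P.ev A)‖) ^ 2 ≤
      (∑ f, ∑ A : Dual F G, a (f + P.ev A)) *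
        ∑ f, √(∑ A : Dual F G, (‖fsum ψ c (f + P.ev A)‖ ^ 2) ^ 2) := by
    refine Finset.sum_sq_le_sum_mul_sum_of_sq_le_mul _
      (fun f _ => Finset.sum_nonneg fun A _ => h0 _) (fun f _ => Real.sqrt_nonneg _) ?_
    intro f _
    exact cs_orbit (fun A : Dual F G => a (f + P.ev A)) (fun A => ‖fsum ψ c (f + P.ev A)‖)
      (fun A => h0 _) (fun A => h1 _) (ha f)
  have e5 : ∑ f, √(∑ A : Dual F G, (‖fsum ψ c (f + P.ev A)‖ ^ 2) ^ 2) =
      √N * orb P.ev (fun y => ‖fsum ψ c y‖ ^ 2) := by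
    rw [orb, Finset.mul_sum]
    refine Finset.sum_congr rfl fun f _ => ?_
    rw [hND, ← Real.sqrt_mul hN0.le, mul_div_cancel₀ _ hN0.ne']
  have e6 := orb_le ψ hψ n (Dual F G) P.ev j c (fun b hb => by
    rw [hc]
    simp only
    rw [if_neg]
    intro hr
    apply hb
    rw [card_van P b]
    exact Nat.mul_le_mul_right _ (Nat.pow_le_pow_right Fintype.card_pos hr))
  rw [← hq, ← hK, hXc] at e6
  rw [e2, e3, e5] at e4
  have hsN : 0 < √N := Real.sqrt_pos.2 hN0
  have hNN : √N * √N = N := Real.mul_self_sqrt hN0.le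
  have hqn : 0 < q ^ n := pow_pos hq0 n
  have hK0 : 0 ≤ K := by positivity
  have e7 : (N * (q ^ n * X)) ^ 2 ≤ q ^ n * (√N * (q ^ n * K ^ j * X)) := by
    calc (N * (q ^ n * X)) ^ 2 ≤ (N * ∑ f, a f * ‖fsum ψ c f‖) ^ 2 :=
          pow_le_pow_left₀ (by positivity) (mul_le_mul_of_nonneg_left e1 hN0.le) 2
      _ ≤ _ := e4
      _ ≤ _ := by gcongr
  rcases hX0.eq_or_lt with h | h
  · rw [← h, mul_zero]
    positivity
  · rw [le_div_iff₀ hsN]
    have e8 : (q ^ n * q ^ n * √N * X) * (N * X * √N) ≤ (q ^ n * q ^ n * √N * X) * K ^ j := by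
      calc (q ^ n * q ^ n * √N * X) * (N * X * √N) = (N * (q ^ n * X)) ^ 2 := by
            rw [mul_pow N, sq N]
            nth_rewrite 4 [← hNN]
            ring
        _ ≤ _ := e7
        _ = _ := by ring
    exact le_of_mul_le_mul_left e8 (by positivity)

lemma geom_le (x : ℝ) (hx : 2 ≤ x) (D : ℕ) : ∑ i ∈ Finset.range (D + 1), x ^ i ≤ 2 * x ^ D := by
  induction D with
  | zero => simp
  | succ D ih =>
    rw [Finset.sum_range_succ, pow_succ]
    have : 0 < x ^ D := by positivity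
    nlinarith

/-- The weighted Fourier sum of the shifted labels decays polynomially. -/
lemma weighted' (ψ : AddChar F ℂ) (hψ : ψ.IsPrimitive) (a : (Fin n → F) → ℝ)
    (h0 : ∀ f, 0 ≤ a f) (h1 : ∀ f, a f ≤ 1)
    (ha : ∀ g, ∑ A : Dual F G, a (g + P.ev A) ≤ 1)
    (hm : ∑ f, a f = (Fintype.card F : ℝ) ^ n / (Fintype.card G : ℝ)) (D₀ : ℕ)
    (hq2 : (2 : ℝ) ≤ (Fintype.card F : ℝ))
    (hD : (5 / 2 * (Fintype.card F : ℝ)) ^ D₀ ≤ √(Fintype.card G : ℝ)) :
    (Fintype.card F : ℝ) * ((Fintype.card G : ℝ) *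
      ∑ b, ‖fc ψ a b‖ ^ 2 / (Fintype.card F : ℝ) ^ finrank F (spn P b)) ≤
        3 * (Fintype.card F : ℝ) * ((Fintype.card F : ℝ) ^ D₀)⁻¹ := by
  set q : ℝ := (Fintype.card F : ℝ) with hq
  have hq0 : 0 < q := by linarith
  have hq1 : 1 ≤ q := by linarith
  set N : ℝ := (Fintype.card G : ℝ) with hN
  have hN0 : 0 < N := by rw [hN]; exact_mod_cast Fintype.card_pos
  have hsN : 0 < √N := Real.sqrt_pos.2 hN0
  -- the weight of a given dimension
  have hW : ∀ D : ℕ,
      N * ((∑ b, if finrank F (spn P b) = D then ‖fc ψ a b‖ ^ 2 else 0) / q ^ D) ≤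
        (5 / 2) ^ D / √N := by
    intro D
    have e1 := weight_rank P ψ hψ a h0 h1 ha hm D
    rw [← hq, ← hN] at e1
    have e2 : (∑ b, if finrank F (spn P b) = D then ‖fc ψ a b‖ ^ 2 else 0) ≤
        ∑ b, if finrank F (spn P b) ≤ D then ‖fc ψ a b‖ ^ 2 else 0 := by
      refine Finset.sum_le_sum fun b _ => ?_
      have : 0 ≤ ‖fc ψ a b‖ ^ 2 := sq_nonneg _
      split_ifs with h h'
      · exact le_refl _
      · exact absurd h.le h'
      · exact this
      · exact le_refl _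
    calc N * ((∑ b, if finrank F (spn P b) = D then ‖fc ψ a b‖ ^ 2 else 0) / q ^ D)
        ≤ N * ((∑ b, if finrank F (spn P b) ≤ D then ‖fc ψ a b‖ ^ 2 else 0) / q ^ D) := by
          gcongr
      _ = (N * ∑ b, if finrank F (spn P b) ≤ D then ‖fc ψ a b‖ ^ 2 else 0) / q ^ D := by
          ring
      _ ≤ ((5 / 2 * q) ^ D / √N) / q ^ D := by gcongr
      _ = _ := by
          rw [mul_pow]
          field_simp
  -- the tail
  have hpar : ∑ b, ‖fc ψ a b‖ ^ 2 ≤ 1 / N := by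
    rw [parseval ψ hψ]
    have e1 : ∑ f, a f ^ 2 ≤ ∑ f, a f := Finset.sum_le_sum fun g _ => by
      calc a g ^ 2 = a g * a g := by ring
        _ ≤ a g * 1 := mul_le_mul_of_nonneg_left (h1 g) (h0 g)
        _ = a g := mul_one _
    rw [hm] at e1
    rw [div_le_iff₀ (by positivity)]
    refine e1.trans (le_of_eq ?_)
    rw [← hq]
    field_simp
  have hsplit : ∑ b, ‖fc ψ a b‖ ^ 2 / q ^ finrank F (spn P b) ≤
      ∑ D ∈ Finset.range (D₀ + 1),
        (∑ b, if finrank F (spn P b) = D then ‖fc ψ a b‖ ^ 2 else 0) / q ^ D +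
      (q ^ (D₀ + 1))⁻¹ * ∑ b, ‖fc ψ a b‖ ^ 2 := by
    have e1 : ∑ D ∈ Finset.range (D₀ + 1),
        (∑ b, if finrank F (spn P b) = D then ‖fc ψ a b‖ ^ 2 else 0) / q ^ D =
        ∑ b, ∑ D ∈ Finset.range (D₀ + 1),
          (if finrank F (spn P b) = D then ‖fc ψ a b‖ ^ 2 else 0) / q ^ D := by
      rw [Finset.sum_comm]
      exact Finset.sum_congr rfl fun D _ => Finset.sum_div _ _ _
    rw [e1, Finset.mul_sum, ← Finset.sum_add_distrib]
    refine Finset.sum_le_sum fun b _ => ?_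
    have e0 : 0 ≤ ‖fc ψ a b‖ ^ 2 := by positivity
    have e2 : ∀ D ∈ Finset.range (D₀ + 1),
        0 ≤ (if finrank F (spn P b) = D then ‖fc ψ a b‖ ^ 2 else 0) / q ^ D := by
      intro D _
      split_ifs <;> positivity
    by_cases hb : finrank F (spn P b) ≤ D₀
    · have e3 := Finset.single_le_sum e2 (Finset.mem_range.2 (Nat.lt_succ_of_le hb))
      rw [if_pos rfl] at e3
      have : 0 ≤ (q ^ (D₀ + 1))⁻¹ * ‖fc ψ a b‖ ^ 2 := by positivity
      linarith
    · have e3 := Finset.sum_nonneg e2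
      have e4 : ‖fc ψ a b‖ ^ 2 / q ^ finrank F (spn P b) ≤
          (q ^ (D₀ + 1))⁻¹ * ‖fc ψ a b‖ ^ 2 := by
        rw [div_eq_mul_inv, mul_comm]
        refine mul_le_mul_of_nonneg_right ?_ e0
        refine inv_anti₀ (by positivity) (pow_le_pow_right₀ hq1 (by omega))
      linarith
  have hsum : N * ∑ D ∈ Finset.range (D₀ + 1),
        (∑ b, if finrank F (spn P b) = D then ‖fc ψ a b‖ ^ 2 else 0) / q ^ D ≤
      2 * (q ^ D₀)⁻¹ := by
    rw [Finset.mul_sum]
    calc ∑ D ∈ Finset.range (D₀ + 1),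
          N * ((∑ b, if finrank F (spn P b) = D then ‖fc ψ a b‖ ^ 2 else 0) / q ^ D)
        ≤ ∑ D ∈ Finset.range (D₀ + 1), (5 / 2 : ℝ) ^ D / √N :=
          Finset.sum_le_sum fun D _ => hW D
      _ = (∑ D ∈ Finset.range (D₀ + 1), (5 / 2 : ℝ) ^ D) / √N := by rw [Finset.sum_div]
      _ ≤ (2 * (5 / 2) ^ D₀) / √N := by
          have := geom_le (5 / 2) (by norm_num) D₀
          gcongr
      _ = 2 * ((5 / 2 * q) ^ D₀ / √N) * (q ^ D₀)⁻¹ := by
          rw [mul_pow]
          field_simp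
      _ ≤ 2 * 1 * (q ^ D₀)⁻¹ := by
          have : (5 / 2 * q) ^ D₀ / √N ≤ 1 := (div_le_one hsN).2 hD
          gcongr
      _ = 2 * (q ^ D₀)⁻¹ := by ring
  calc q * (N * ∑ b, ‖fc ψ a b‖ ^ 2 / q ^ finrank F (spn P b))
      ≤ q * (N * (∑ D ∈ Finset.range (D₀ + 1),
        (∑ b, if finrank F (spn P b) = D then ‖fc ψ a b‖ ^ 2 else 0) / q ^ D +
        (q ^ (D₀ + 1))⁻¹ * (1 / N))) := by
        refine mul_le_mul_of_nonneg_left (mul_le_mul_of_nonneg_left (hsplit.trans ?_) hN0.le)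
          hq0.le
        have := mul_le_mul_of_nonneg_left hpar (inv_nonneg.2 (pow_pos hq0 (D₀ + 1)).le)
        linarith
    _ = q * (N * (∑ D ∈ Finset.range (D₀ + 1),
        (∑ b, if finrank F (spn P b) = D then ‖fc ψ a b‖ ^ 2 else 0) / q ^ D) +
        (q ^ (D₀ + 1))⁻¹) := by
        field_simp
    _ ≤ q * (2 * (q ^ D₀)⁻¹ + (q ^ (D₀ + 1))⁻¹) := by
        refine mul_le_mul_of_nonneg_left ?_ hq0.le
        linarith
    _ = (2 * q + 1) * (q ^ D₀)⁻¹ := by
        rw [pow_succ]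
        field_simp
    _ ≤ _ := by
        refine mul_le_mul_of_nonneg_right ?_ (by positivity)
        linarith

/-- A labelling of the gap instance satisfies few edges. -/
lemma frac_sq' {κ : ℕ} (P : Frame F (GG F κ) n) (ψ : AddChar F ℂ) (hψ : ψ.IsPrimitive)
    (S₀ : NZ F (GG F κ)) (D₀ : ℕ)
    (hD : (5 / 2 * (Fintype.card F : ℝ)) ^ D₀ ≤ √((Fintype.card F : ℝ) ^ (κ + 1)))
    (Fl : NZ F (GG F κ) × (Fin n → F) → Fin (Fintype.card F ^ κ))
    (gl : (Fin n → F) → Fin (Fintype.card F * Fintype.card F ^ κ)) :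
    (inst P).frac Fl gl ^ 2 ≤
      3 * (Fintype.card F : ℝ) * ((Fintype.card F : ℝ) ^ D₀)⁻¹ := by
  have hN : (Fintype.card (GG F κ) : ℝ) = (Fintype.card F : ℝ) ^ (κ + 1) := by
    rw [Fintype.card_fun, Fintype.card_fin]; push_cast; rfl
  have hN0 : (0 : ℝ) < (Fintype.card (GG F κ) : ℝ) := by exact_mod_cast Fintype.card_pos
  have hq2 : (2 : ℝ) ≤ (Fintype.card F : ℝ) := by
    have : 1 < Fintype.card F := Fintype.one_lt_card
    exact_mod_cast this
  set T : (Fin n → F) → Dual F (GG F κ) := fun f => tau F κ (gl f) with hT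
  have hw := weighted' P ψ hψ (fun g => P.cnt T g / (Fintype.card (GG F κ) : ℝ))
    (fun g => div_nonneg (P.cnt_nonneg T g) hN0.le)
    (fun g => (div_le_one hN0).2 (P.cnt_le T g))
    (fun g => by
      rw [← Finset.sum_div]
      exact (div_le_one hN0).2 (sum_shift_cnt P T g))
    (by rw [← Finset.sum_div, P.sum_cnt T]) D₀ hq2 (by rw [hN]; exact hD)
  set B : ℝ := 3 * (Fintype.card F : ℝ) * ((Fintype.card F : ℝ) ^ D₀)⁻¹ with hB
  have hB0 : 0 ≤ B := by positivity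
  set Sat := (inst P).E.filter (fun e => (inst P).π e (gl e.2) = Fl e.1) with hSat
  have h1 : (Sat.card : ℝ) ^ 2 ≤ ((P.edges.card : ℝ)) ^ 2 * B := by
    refine (sound_w P ψ hψ T (Fintype.card (P.LL S₀.1) : ℝ)
      (Fintype.card (P.CC S₀.1) : ℝ) (by exact_mod_cast Fintype.card_pos) ?_ ?_ ?_ Sat
      (Finset.filter_subset _ _) ?_ (fun b => (Fintype.card F : ℝ) ^ finrank F (spn P b))
      (fun b => by positivity) (fun b => count_spn P b)).trans
      (mul_le_mul_of_nonneg_left hw (sq_nonneg _))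
    · intro S; rw [P.card_LL_eq S.2 S₀.2]
    · intro S; rw [P.card_CC_eq S.2 S₀.2]
    · exact_mod_cast P.card_LL S₀.2
    · intro v f f' hf hf' i hi
      have e1 : lft v.1 (tau F κ (gl f) + shf P v f) = Fl v := (Finset.mem_filter.1 hf).2
      have e2 : lft v.1 (tau F κ (gl f') + shf P v f') = Fl v := (Finset.mem_filter.1 hf').2
      obtain ⟨c, hc⟩ := (lft_eq_iff _ _ _).1 (e2.trans e1.symm)
      have e3 := shf_spec P ((P.mem_edges (v, f)).1 (Finset.mem_filter.1 hf).1) i hi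
      have e4 := shf_spec P ((P.mem_edges (v, f')).1 (Finset.mem_filter.1 hf').1) i hi
      have e5 : tau F κ (gl f') (P.pt i) + shf P v f' (P.pt i) =
          tau F κ (gl f) (P.pt i) + shf P v f (P.pt i) + c * v.1.1 (P.pt i) := by
        have := congrArg (fun A : Dual F (GG F κ) => A (P.pt i)) hc
        simpa using this
      rw [hi, mul_zero, add_zero, ← e3, ← e4] at e5
      have e6 : f' i + tau F κ (gl f') (P.pt i) = f i + tau F κ (gl f) (P.pt i) := by
        linear_combination e5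
      rw [Frame.lab, Frame.lab, Pi.sub_apply, Pi.add_apply, Pi.add_apply, P.ev_apply, P.ev_apply,
        e6, sub_self]
  rw [LabelCover.frac, ← hSat, div_pow]
  rcases (sq_nonneg (P.edges.card : ℝ)).eq_or_lt with h0 | h0
  · change (Sat.card : ℝ) ^ 2 / (P.edges.card : ℝ) ^ 2 ≤ B
    rw [← h0, div_zero]; exact hB0
  · change (Sat.card : ℝ) ^ 2 / (P.edges.card : ℝ) ^ 2 ≤ B
    rw [div_le_iff₀ h0, mul_comm]; exact h1

/-- The choice of the dimension. -/
lemma choose_D (q : ℝ) (hq : 2 ≤ q) (κ : ℕ) : ∃ D₀ : ℕ,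
    (5 / 2 * q) ^ D₀ ≤ √(q ^ (κ + 1)) ∧ 3 * q * (q ^ D₀)⁻¹ ≤
      (2 * q * (q ^ κ) ^ (-(Real.log q / (4 * Real.log (5 / 2 * q))))) ^ 2 := by
  have hq0 : 0 < q := by linarith
  have hq1 : 1 ≤ q := by linarith
  have hl0 : 0 ≤ Real.log q := Real.log_nonneg hq1
  have hl1 : 0 < Real.log (5 / 2 * q) := Real.log_pos (by linarith)
  set e : ℝ := Real.log q / (4 * Real.log (5 / 2 * q)) with he
  have he0 : 0 ≤ e := by positivity
  set x : ℝ := ((κ : ℝ) + 1) * (2 * e) with hx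
  have hx0 : 0 ≤ x := by positivity
  refine ⟨⌊x⌋₊, ?_, ?_⟩
  · have h1 : (5 / 2 * q) ^ ⌊x⌋₊ ≤ (5 / 2 * q) ^ x := by
      rw [← Real.rpow_natCast]
      exact Real.rpow_le_rpow_of_exponent_le (by linarith) (Nat.floor_le hx0)
    refine h1.trans (le_of_eq ?_)
    rw [Real.sqrt_eq_rpow, ← Real.rpow_natCast, ← Real.rpow_mul hq0.le,
      Real.rpow_def_of_pos (by linarith), Real.rpow_def_of_pos hq0]
    congr 1
    rw [hx, he]
    push_cast
    have hne : Real.log (5 / 2 * q) ≠ 0 := hl1.ne'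
    generalize Real.log (5 / 2 * q) = l at hne
    field_simp
    ring
  · have h3 : (q ^ ⌊x⌋₊)⁻¹ ≤ q ^ (1 - (κ : ℝ) * (2 * e)) := by
      rw [← Real.rpow_natCast, ← Real.rpow_neg hq0.le]
      refine Real.rpow_le_rpow_of_exponent_le hq1 ?_
      have h4 := Nat.lt_floor_add_one x
      rw [hx] at h4 ⊢
      nlinarith
    have h4 : (2 * q * (q ^ κ) ^ (-e)) ^ 2 = 4 * q * q ^ (1 - (κ : ℝ) * (2 * e)) := by
      rw [mul_pow, mul_pow, ← Real.rpow_natCast q κ, ← Real.rpow_mul hq0.le,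
        ← Real.rpow_natCast (q ^ ((κ : ℝ) * -e)) 2, ← Real.rpow_mul hq0.le,
        sub_eq_add_neg, Real.rpow_add hq0, Real.rpow_one]
      have : (κ : ℝ) * -e * ((2 : ℕ) : ℝ) = -((κ : ℝ) * (2 * e)) := by
        push_cast
        ring
      rw [this]
      ring
    rw [h4]
    have h5 : 0 < q ^ (1 - (κ : ℝ) * (2 * e)) := by positivity
    calc 3 * q * (q ^ ⌊x⌋₊)⁻¹ ≤ 3 * q * q ^ (1 - (κ : ℝ) * (2 * e)) := by gcongr
      _ ≤ _ := by
        have : 0 < q * q ^ (1 - (κ : ℝ) * (2 * e)) := by positivity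
        nlinarith

/-- **Gap instances with perfect solutions and polynomially small value.** -/
lemma upper' (F : Type) [Field F] [Fintype F] (κ : ℕ) :
    ∃ (V W : Type) (_ : Fintype V) (_ : Fintype W)
      (Φ : LabelCover V W (Fintype.card F) (Fintype.card F ^ κ)) (N : ℕ),
      Φ.E.Nonempty ∧ Φ.SecondSingular (1 / (Fintype.card F : ℝ)) ∧
        (∃ S : PerfectSolution Φ N, S.CommonSum) ∧
        Φ.value ≤ 2 * (Fintype.card F : ℝ) * ((Fintype.card F : ℝ) ^ κ) ^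
          (-(Real.log (Fintype.card F : ℝ) / (4 * Real.log (5 / 2 * (Fintype.card F : ℝ))))) := by
  have hq : 1 < Fintype.card F := Fintype.one_lt_card
  have hq2 : (2 : ℝ) ≤ (Fintype.card F : ℝ) := by exact_mod_cast hq
  set ψ : AddChar F ℂ := AddChar.FiniteField.primitiveChar_to_Complex F with hψd
  have hψ : ψ.IsPrimitive := AddChar.FiniteField.primitiveChar_to_Complex_isPrimitive F
  obtain ⟨n, ⟨P⟩⟩ := exists_frame (F := F) (G := GG F κ)
  obtain ⟨S₁, hS₁⟩ : ∃ S : Dual F (GG F κ), S ≠ 0 := exists_ne 0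
  set S₀ : NZ F (GG F κ) := ⟨S₁, hS₁⟩ with hS₀
  refine ⟨NZ F (GG F κ) × (Fin n → F), Fin n → F, inferInstance, inferInstance,
    inst P, Fintype.card (GG F κ × Bool), ?_, ?_,
    ⟨perf P ψ hψ, zv F κ, norm_zv, sum_xv P ψ hψ, sum_yv P ψ hψ⟩, ?_⟩
  · refine ⟨((S₀, 0), 0), (P.mem_edges _).2 ?_⟩
    rw [sub_self]
    exact Submodule.zero_mem _
  · intro f g h0
    refine P.spectral ψ hψ (Fintype.card (P.LL S₀.1) : ℝ) (by exact_mod_cast Fintype.card_pos) ?_
      f g h0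
    intro S; rw [P.card_LL_eq S.2 S₀.2]
  · have hR : 0 < Fintype.card F ^ κ := pow_pos Fintype.card_pos _
    have : Nonempty (Fin (Fintype.card F ^ κ)) := ⟨⟨0, hR⟩⟩
    have : Nonempty (Fin (Fintype.card F * Fintype.card F ^ κ)) :=
      ⟨⟨0, Nat.mul_pos Fintype.card_pos hR⟩⟩
    refine ciSup_le fun fg => ?_
    obtain ⟨D₀, hD, h⟩ := choose_D (Fintype.card F : ℝ) hq2 κ
    refine le_of_sq_le_sq ?_ (by positivity)
    exact (frac_sq' P ψ hψ S₀ D₀ hD fg.1 fg.2).trans h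

end

end Pool.Agent.H18.DTO
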